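import Pool.Agent.H970_TF.Link4

/-!
# Invariants of order two separate links in families of powers of positive braids

Diagrams (starting library `Pool.Agent.H891R2.Jones.Diagram`): `Diagram P` (oriented link diagrams with
marked points `P`, planar or not), `Diagram.IsClosed` (the pieces of the diagram fit together to closed
oriented curves), `Outer m` (the part of an oriented diagram outside a box through which `m` strands run;
`O.up j`: the `j`-th strand is directed upwards), `Outer.close` (the box is filled with vertical strands).

Braid words (starting library `Pool.Agent.W639.RB.Defs`, `Pool.Agent.Y463.SK.Defs`):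
`Letter m = Bool × Fin (m - 1)` (the letters `σ_i^{±1}`), `dia O w` (the diagram with the braid word `w` in
the box of `O`), `powW w n` (the word `w^n`, `n ∈ ℤ`), `IsPure` (the permutation is trivial).

Vassiliev invariants (starting library `Pool.Agent.H832R3.VJ.Defs`): `Dia` (an oriented diagram with the
finite set of its marked points), `Separated d X Y` (some integer valued Vassiliev invariant of oriented
links of order at most `d` has different values on `X` and `Y`).

New definition (`Pool.Agent.H970_TF.Defs`): `cross w a b`, the sum of the exponents of the letters of `w` in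
which the strands of `w` starting at the places `a` and `b` cross; for a pure braid it is twice the linking
number of the two strands.

Proof (`Pool.Agent.H970_TF`).  The moments of order `1` and `2` at `A = 1` of the normalised bracket `f(A)`
are Vassiliev invariants of order `1` and `2` (starting library).  For a pure braid `w` the first
differences of `n ↦ f(w^n v)` are `(A - 1) P_n` and the second differences `(A - 1)² Q_n`, where
`P_n(1) = - κ₁` and `Q_n(1) = κ` do not depend on `n`, so the moments of order `1` have the constant
difference `- κ₁` and those of order `2` the constant second difference `2 κ`.  If two strands with a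
nonzero linking number belong to different components of the closure, then `κ₁ ≠ 0` (the total linking
number grows); otherwise `κ ≠ 0`, as a sum over the pairs of crossings of `w` in which all terms have the
same sign.
-/

set_option autoImplicit false

namespace Pool.Agent.Results.MP_31fd3b_gt.OrderTwoSeparation

open LaurentPolynomial Pool.Agent.H891R2.Jones Pool.Agent.W639.RB Pool.Agent.Y463.SK
  Pool.Agent.H970.TF Pool.Agent.H832R3.VJ

/-- Let `O` be the outside of a box in a closed oriented link diagram, the `m` strands in the box being
parallel (all of them directed upwards).  Let `w` be a braid word on `m` strands and `r ≥ 1` such that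
`w^r` is a pure braid, every two strands of `w^r` having a linking number `≥ 0` and at least one of these
numbers being different from `0` (for example a pure braid `w` with this property and `r = 1`, such as the
full twist; or any nonempty word in the letters `σ_i` and the order `r` of its permutation).  Let `v` be any
braid word.  For `n ∈ ℤ` let `D(n)` be the closed oriented diagram obtained by putting the braid `w^n v` into
the box.

* For every oriented diagram `Y` (of a knot or a link) all but at most `2 r` of the diagrams `D(n)`,
  `n ∈ ℤ`, are separated from `Y` by Vassiliev invariants of order at most `2`.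
* Each `D(k)` is separated by Vassiliev invariants of order at most `2` from all but at most `2 r - 1` of the
  other diagrams `D(n)`. -/
theorem result (m : ℕ) (O : Outer m) (hO : ∀ j, O.up j = true) (hc : O.close.IsClosed)
    (w v : List (Letter m)) (r : ℕ) (hr : 0 < r) (hw : IsPure (powW w r))
    (h0 : ∀ a b : Fin m, a ≠ b → 0 ≤ Pool.Agent.H970.TF.cross (powW w r) a b)
    (h1 : ∃ a b : Fin m, a ≠ b ∧ Pool.Agent.H970.TF.cross (powW w r) a b ≠ 0) :
    (∀ n : ℤ, (dia O (powW w n ++ v)).IsClosed) ∧
    (∀ Y : Dia,
      {n : ℤ | ¬ Separated 2 ⟨_, inferInstance, dia O (powW w n ++ v)⟩ Y}.encard ≤ 2 * r) ∧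
    ∀ k : ℤ, {n : ℤ | n ≠ k ∧ ¬ Separated 2 ⟨_, inferInstance, dia O (powW w n ++ v)⟩
      ⟨_, inferInstance, dia O (powW w k ++ v)⟩}.encard + 1 ≤ 2 * r := by
  have hm : 0 < m := h1.choose.pos
  have hpos : ∀ a b : Fin m, a ≠ b → 0 ≤ crossN m (powL (toN w) r) a b := by
    intro a b hab
    rw [← toN_pow, crossN_eq]
    exact h0 a b hab
  have hne : ∃ a b : Fin m, a ≠ b ∧ crossN m (powL (toN w) r) a b ≠ 0 := by
    obtain ⟨a, b, hab, h⟩ := h1
    refine ⟨a, b, hab, ?_⟩
    rw [← toN_pow, crossN_eq]
    exact h
  have hp : permL (powL (toN w) r) = 1 := by
    rw [← toN_pow]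
    exact permL_of_pure hw
  have main : ∀ Y : Dia,
      {n : ℤ | ¬ Separated 2 ⟨_, inferInstance, dia O (powW w n ++ v)⟩ Y}.encard ≤ 2 * r := by
    intro Y
    refine le_trans (Set.encard_le_encard ?_) (at_most_general_link hm O hO
      (goodL_closed hm O hO hc) (toN w) (toN v) (toN_lt w) (toN_lt v) r hr hp hpos hne
      (moment 1 Y.D.fPoly) (moment 2 Y.D.fPoly))
    intro n hn
    rw [Set.mem_ofPred_eq] at hn ⊢
    have e1 := moment_eq_of_not_separated (j := 1) (by norm_num) hn
    have e2 := moment_eq_of_not_separated (j := 2) le_rfl hn
    simp only [dia_fPoly, toN_append, toN_pow] at e1 e2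
    exact ⟨e1, e2⟩
  refine ⟨fun n => draw_closed _ O (toN_lt _) hO hc, main, fun k => ?_⟩
  have hnot : ¬ Separated 2 ⟨_, inferInstance, dia O (powW w k ++ v)⟩
      ⟨_, inferInstance, dia O (powW w k ++ v)⟩ := by
    rintro ⟨_, _, _, _, h⟩
    exact h rfl
  have h2 := Set.encard_sdiff_singleton_add_one
    (show k ∈ {n : ℤ | ¬ Separated 2 ⟨_, inferInstance, dia O (powW w n ++ v)⟩
        ⟨_, inferInstance, dia O (powW w k ++ v)⟩} from hnot)
  refine le_trans (add_le_add (Set.encard_le_encard ?_) le_rfl) (h2.le.trans (main _))
  rintro n ⟨hn, hn'⟩
  exact ⟨hn', fun h => hn (Set.mem_singleton_iff.1 h)⟩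

end Pool.Agent.Results.MP_31fd3b_gt.OrderTwoSeparation
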